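import Pool.Agent.Y507.Coi.Stm

/-! # Step VPP: the volume of the product of a polytope and the pentagon `T` -/

set_option autoImplicit false

open MeasureTheory Set
open scoped Matrix ENNReal

namespace Pool.Agent.Y689.Coi

open Pool.Agent.W560.Coiso Pool.Agent.Y507.Coi

/-- the first two coordinates and the others -/
def sp (k : ℕ) (z : Fin (k + 3) → ℝ) : (ℝ × ℝ) × (Fin (k + 1) → ℝ) :=
  ((z 0, z 1), fun j => z j.succ.succ)

theorem sp_mp (k : ℕ) : MeasurePreserving (sp k) volume volume := by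
  have h1 := volume_preserving_piFinSuccAbove (fun _ : Fin (k + 3) => ℝ) 0
  have h2 := volume_preserving_piFinSuccAbove (fun _ : Fin (k + 2) => ℝ) 0
  have h3 : MeasurePreserving (Prod.map (id : ℝ → ℝ)
      (MeasurableEquiv.piFinSuccAbove (fun _ : Fin (k + 2) => ℝ) 0)) volume volume :=
    (MeasurePreserving.id (volume : Measure ℝ)).prod h2
  have h4 : MeasurePreserving (MeasurableEquiv.prodAssoc :
      (ℝ × ℝ) × (Fin (k + 1) → ℝ) ≃ᵐ ℝ × ℝ × (Fin (k + 1) → ℝ)).symm volume volume :=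
    (volume_preserving_prodAssoc).symm _
  have h5 := h4.comp (h3.comp h1)
  have h6 : sp k = ((MeasurableEquiv.prodAssoc :
      (ℝ × ℝ) × (Fin (k + 1) → ℝ) ≃ᵐ ℝ × ℝ × (Fin (k + 1) → ℝ)).symm ∘
      (Prod.map (id : ℝ → ℝ) (MeasurableEquiv.piFinSuccAbove (fun _ : Fin (k + 2) => ℝ) 0)) ∘
      (MeasurableEquiv.piFinSuccAbove (fun _ : Fin (k + 3) => ℝ) 0)) := by
    funext z
    rfl
  rw [h6]
  exact h5

/-- the pentagon -/
def AT : Set (ℝ × ℝ) := {y | InT y.1 y.2}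

theorem isClosed_AT : IsClosed AT := by
  have h1 : IsClosed {y : ℝ × ℝ | (1 + psi) * y.1 - (1 + psi) * y.2 ≤ 1} :=
    isClosed_le (by fun_prop) (by fun_prop)
  have h2 : IsClosed {y : ℝ × ℝ | (1 + psi) * y.1 + psi * y.2 ≤ 1} :=
    isClosed_le (by fun_prop) (by fun_prop)
  have h3 : IsClosed {y : ℝ × ℝ | -psi * y.1 + 2 * y.2 ≤ 1} :=
    isClosed_le (by fun_prop) (by fun_prop)
  have h4 : IsClosed {y : ℝ × ℝ | -2 * y.1 + psi * y.2 ≤ 1} :=
    isClosed_le (by fun_prop) (by fun_prop)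
  have h5 : IsClosed {y : ℝ × ℝ | -psi * y.1 - (1 + psi) * y.2 ≤ 1} :=
    isClosed_le (by fun_prop) (by fun_prop)
  exact h1.inter (h2.inter (h3.inter (h4.inter h5)))

theorem volume_AT : volume AT ≤ ENNReal.ofReal (5 / 2 * psi ^ 2) := by
  have h1 : volume {p : Fin 3 → ℝ | InT (p 0) (p 1) ∧ 0 ≤ p 2 ∧ p 2 ≤ 1} ≤
      ENNReal.ofReal (1 * (5 / 2 * psi ^ 2)) := volume_prism zero_le_one fun p hp => hp
  rw [one_mul] at h1
  have h2 : sp 0 ⁻¹' (AT ×ˢ Icc (0 : Fin 1 → ℝ) 1) ⊆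
      {p : Fin 3 → ℝ | InT (p 0) (p 1) ∧ 0 ≤ p 2 ∧ p 2 ≤ 1} := by
    intro p hp
    obtain ⟨ha, hb⟩ := hp
    exact ⟨ha, hb.1 0, hb.2 0⟩
  have h3 := (measure_mono h2).trans h1
  rw [(sp_mp 0).measure_preimage
    (isClosed_AT.measurableSet.prod measurableSet_Icc).nullMeasurableSet,
    Measure.volume_eq_prod, Measure.prod_prod, Real.volume_Icc_pi] at h3
  simpa using h3

theorem two_dot {k : ℕ} (u : Fin 2 → ℝ) (w : Fin (k + 1) → ℝ) (z : Fin (k + 3) → ℝ) :
    two u w ⬝ᵥ z = u 0 * z 0 + u 1 * z 1 + w ⬝ᵥ (fun j => z j.succ.succ) := by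
  unfold two dotProduct
  rw [Fin.sum_univ_succ, Fin.sum_univ_succ]
  simp only [Fin.cons_zero, Fin.cons_succ]
  simp only [Fin.succ_zero_eq_one]
  ring

theorem mem_of {k : ℕ} {J : Type} (τ : J → Fin (k + 1) → ℝ) (z : Fin (k + 3) → ℝ)
    (h : ∀ j, tp τ j ⬝ᵥ z ≤ 1) : InT (z 0) (z 1) ∧ ∀ j, τ j ⬝ᵥ (fun j => z j.succ.succ) ≤ 1 := by
  constructor
  · have h0 := h (Sum.inl 0)
    have h1 := h (Sum.inl 1)
    have h2 := h (Sum.inl 2)
    have h3 := h (Sum.inl 3)
    have h4 := h (Sum.inl 4)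
    simp only [tp, Sum.elim_inl, two_dot, zero_dotProduct, add_zero, pt] at h0 h1 h2 h3 h4
    simp at h0 h1 h2 h3 h4
    refine ⟨?_, ?_, ?_, ?_, ?_⟩ <;> linarith
  · intro j
    have h0 := h (Sum.inr j)
    simp only [tp, Sum.elim_inr, two_dot, Pi.zero_apply, zero_mul, zero_add] at h0
    exact h0

theorem bound_InT {u v : ℝ} (h : InT u v) : |u| ≤ 5 ∧ |v| ≤ 5 := by
  obtain ⟨g0, g1, g2, g3, g4⟩ := h
  have hp := psi_gt
  have hp' := psi_lt
  have sq : ∀ z : ℝ, psi * (psi * z) = z - psi * z := fun z => by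
    rw [← mul_assoc, psi_mul_self]; ring
  have v1 : v ≤ 5 := by
    by_contra hcon
    rw [not_le] at hcon
    nlinarith
  have v1' : -5 ≤ v := by
    by_contra hcon
    rw [not_le] at hcon
    nlinarith
  have u1 : u ≤ 5 := by
    by_contra hcon
    rw [not_le] at hcon
    nlinarith
  have u1' : -5 ≤ u := by
    by_contra hcon
    rw [not_le] at hcon
    nlinarith
  exact ⟨abs_le.mpr ⟨u1', u1⟩, abs_le.mpr ⟨v1', v1⟩⟩

theorem thm : S_VPP := by
  intro k J _ τ hb
  constructor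
  · obtain ⟨R, hR⟩ := hb.subset_closedBall 0
    refine (Metric.isBounded_closedBall (x := (0 : Fin (k + 3) → ℝ)) (r := max R 5)).subset ?_
    intro z hz
    obtain ⟨h1, h2⟩ := mem_of τ z hz
    obtain ⟨b1, b2⟩ := bound_InT h1
    have h3 : (fun j => z j.succ.succ : Fin (k + 1) → ℝ) ∈ Metric.closedBall 0 R := hR h2
    rw [mem_closedBall_zero_iff] at h3 ⊢
    have h5 : (0 : ℝ) ≤ max R 5 := le_trans (by norm_num) (le_max_right R 5)
    rw [pi_norm_le_iff_of_nonneg h5]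
    intro i
    refine Fin.cases ?_ (fun i => Fin.cases ?_ (fun j => ?_) i) i
    · exact le_trans b1 (le_max_right _ _)
    · exact le_trans b2 (le_max_right _ _)
    · exact le_trans (norm_le_pi_norm (fun j => z j.succ.succ : Fin (k + 1) → ℝ) j)
        (le_trans h3 (le_max_left _ _))
  · have hPS : IsClosed (PS τ) := by
      have e : PS τ = (⋂ j, {p : Fin (k + 1) → ℝ | τ j ⬝ᵥ p ≤ 1}) ∩
          {p : Fin (k + 1) → ℝ | 0 ≤ p (Fin.last k)} := by
        ext p
        simp [PS]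
      rw [e]
      refine (isClosed_iInter fun j => isClosed_le ?_ continuous_const).inter
        (isClosed_le continuous_const (continuous_apply _))
      exact Continuous.dotProduct continuous_const continuous_id
    have hsub : PS (k := k + 2) (tp τ) ⊆ sp k ⁻¹' (AT ×ˢ PS τ) := by
      intro z hz
      obtain ⟨h1, h2⟩ := mem_of τ z hz.1
      exact ⟨h1, h2, hz.2⟩
    refine (measure_mono hsub).trans ?_
    rw [(sp_mp k).measure_preimage
      (isClosed_AT.measurableSet.prod hPS.measurableSet).nullMeasurableSet,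
      Measure.volume_eq_prod, Measure.prod_prod]
    exact mul_le_mul' volume_AT le_rfl

end Pool.Agent.Y689.Coi
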